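import Pool.Agent.TH339.TW.A6

/-!
# The L-functions of the twists of an elliptic curve over a number field on the edge of convergence

Let `E` be an elliptic curve over `ℚ`, `K` a number field of degree `n` and `χ` a Dirichlet character
modulo `m`.  The twisted Euler product `L(E/K, χ, s) = ∏_v det(1 - χ(Nv) Frob_v Nv^{-s} | V_ℓ(E)^{I_v})⁻¹`
converges for `Re s > 3/2`.  If `K ∩ ℚ(ζ_m) = ℚ`, the product of these functions over all `χ` modulo `m`
is `L(E/K(ζ_m), s)`, up to the factors at the primes dividing `m`.  A continuation of these functions to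
the edge `Re s = 3/2` is not known for general `K`; if the functions are as conjectured, then they are
bounded on the edge by powers of the logarithm of the conductor.  The theorem proves such bounds, from
above and from below and without any continuation, for all but very few `χ` modulo `m`, up to a distance
`δ₀` from the edge which may be as small as `exp(-φ(m)^c)`, `c < 1/3`.  For those `χ` for which a
continuation to some disc around a point of the edge exists, the value at this point is bounded from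
above and below (in particular it is not zero), again with very few exceptions.  The constant is the
same for all elliptic curves and all number fields, and the theorem holds for all motives.
-/

set_option autoImplicit false

namespace Pool.Agent.Results.MP_bf9450_nt.EdgeBoundsForTwists

open NumberField IsDedekindDomain Polynomial

section
variable {K : Type} [Field K] [NumberField K]

/-- The norm `Nv`. -/
noncomputable def q (v : HeightOneSpectrum (𝓞 K)) : ℕ := Ideal.absNorm v.asIdeal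

/-- The twisted Euler product `L(s, χ) = ∏_v P_v(χ(Nv) Nv^{-s})⁻¹` over the primes `v` of `K`. -/
noncomputable def L (P : HeightOneSpectrum (𝓞 K) → ℂ[X]) {m : ℕ} (χ : DirichletCharacter ℂ m)
    (s : ℂ) : ℂ :=
  ∏' v : HeightOneSpectrum (𝓞 K), ((P v).eval (χ (q v : ZMod m) * (q v : ℂ) ^ (-s)))⁻¹

/-- The polynomials `P_v` have constant term `1`, degree at most `N`, and the inverses of their zeros
have absolute value at most `Nv^{w/2}`.  For `P_v = det(1 - Frob_v T | V_ℓ(E)^{I_v})`, `E` an elliptic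
curve, this is the theorem of Hasse, with `N = 2` and `w = 1` (at the bad places `P_v` is `1`, `1 - T` or
`1 + T`). -/
structure HasWeights (P : HeightOneSpectrum (𝓞 K) → ℂ[X]) (N : ℕ) (w : ℤ) : Prop where
  coeff_zero : ∀ v, (P v).coeff 0 = 1
  natDegree_le : ∀ v, (P v).natDegree ≤ N
  le_norm : ∀ v, ∀ z : ℂ, (P v).IsRoot z → (q v : ℝ) ^ (-((w : ℝ) / 2)) ≤ ‖z‖

end

/-- The point `1 + w/2 + iτ` of the edge. -/
noncomputable def edgePoint (w : ℤ) (τ : ℝ) : ℂ := 1 + (w : ℂ) / 2 + τ * Complex.I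

/-- **Bounds on the edge for almost all twists.**  There is an absolute constant `C > 0` with the
following property.  Let `K` be a number field of degree `n`, `N ≥ 1`, and let the `P_v` have degree at
most `N` and weight `w` (for elliptic curves `N = 2`, `w = 1`).  Let `m ≥ 2` and `s₀ = 1 + w/2 + iτ` with a
real `τ`, and put `Q = (C log m)^{nN}`.

* For `0 < δ₀ ≤ 1/2`, all but at most `C (log(1/δ₀))³` of the Dirichlet characters `χ` modulo `m` satisfy
  `1/Q ≤ |L(s, χ)| ≤ Q` for all `s` with `Re(s - s₀) ≥ δ₀` and `|Im(s - s₀)| ≤ Re(s - s₀)/2`.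
* For `0 < r ≤ 1` and `B ≥ 1`, all but at most `C (log(B/r) + log Q)³` of the Dirichlet characters `χ`
  modulo `m` satisfy: every continuation `f` of `L(s, χ)` to the disc `|s - s₀| < r` which is analytic
  and bounded by `B` in this disc has `1/(2Q) ≤ |f(s₀)| ≤ 2Q`. -/
theorem result : ∃ C : ℝ, 0 < C ∧ ∀ (K : Type) [Field K] [NumberField K] (N : ℕ), 1 ≤ N →
    ∀ (w : ℤ) (P : HeightOneSpectrum (𝓞 K) → ℂ[X]), HasWeights P N w →
    ∀ m : ℕ, 2 ≤ m → ∀ τ Q : ℝ, Q = (C * Real.log m) ^ (Module.finrank ℚ K * N) →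
    (∀ δ₀ : ℝ, 0 < δ₀ → δ₀ ≤ 1 / 2 →
      ({χ : DirichletCharacter ℂ m | ¬ ∀ s : ℂ, δ₀ ≤ (s - edgePoint w τ).re →
        |(s - edgePoint w τ).im| ≤ (s - edgePoint w τ).re / 2 →
        1 / Q ≤ ‖L P χ s‖ ∧ ‖L P χ s‖ ≤ Q}.ncard : ℝ) ≤ C * Real.log (1 / δ₀) ^ 3) ∧
    ∀ r B : ℝ, 0 < r → r ≤ 1 → 1 ≤ B →
      ({χ : DirichletCharacter ℂ m | ¬ ∀ f : ℂ → ℂ,
        DifferentiableOn ℂ f (Metric.ball (edgePoint w τ) r) →
        (∀ s ∈ Metric.ball (edgePoint w τ) r, ‖f s‖ ≤ B) →
        (∀ s ∈ Metric.ball (edgePoint w τ) r, 0 < (s - edgePoint w τ).re → f s = L P χ s) →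
        1 / (2 * Q) ≤ ‖f (edgePoint w τ)‖ ∧ ‖f (edgePoint w τ)‖ ≤ 2 * Q}.ncard : ℝ) ≤
        C * (Real.log (B / r) + Real.log Q) ^ 3 := by
  obtain ⟨C, hC0, hC⟩ := Pool.Agent.TH339.TW.char_values
  refine ⟨C, hC0, ?_⟩
  rintro K _ _ N hN w P hP m hm τ Q rfl
  have : NeZero m := ⟨by omega⟩
  obtain ⟨h1, h2⟩ := hC K N hN (w : ℝ) P hP.coeff_zero hP.natDegree_le hP.le_norm m hm τ
  have hpt : (((1 + (w : ℝ) / 2 : ℝ) : ℂ) + τ * Complex.I) = edgePoint w τ := by
    unfold edgePoint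
    push_cast
    ring
  have hre : (edgePoint w τ).re = 1 + (w : ℝ) / 2 := by
    rw [← hpt]
    simp only [Complex.add_re, Complex.ofReal_re, Complex.mul_re, Complex.I_re, Complex.I_im,
      Complex.ofReal_im, mul_zero, zero_mul, sub_zero, add_zero]
  have him : (edgePoint w τ).im = τ := by
    rw [← hpt]
    simp only [Complex.add_im, Complex.ofReal_re, Complex.mul_im, Complex.I_re, Complex.I_im,
      Complex.ofReal_im, mul_zero, mul_one, add_zero, zero_add]
  rw [hpt] at h2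
  have hlogQ : Real.log ((C * Real.log m) ^ (Module.finrank ℚ K * N)) =
      ((Module.finrank ℚ K : ℝ) * N) * Real.log (C * Real.log m) := by
    rw [Real.log_pow]
    push_cast
    ring
  have hLL : ∀ (χ : DirichletCharacter ℂ m) (s : ℂ), L P χ s = Pool.Agent.TH339.TW.LL P χ s :=
    fun _ _ => rfl
  have hmono : ∀ p p' : DirichletCharacter ℂ m → Prop, (∀ χ, p χ → p' χ) →
      (({χ | p χ}.ncard : ℕ) : ℝ) ≤ (({χ | p' χ}.ncard : ℕ) : ℝ) := fun p p' h =>
    Nat.cast_le.2 (Set.ncard_le_ncard (fun χ hχ => h χ hχ) (Set.toFinite _))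
  generalize (C * Real.log m) ^ (Module.finrank ℚ K * N) = Q at h1 h2 hlogQ ⊢
  refine ⟨fun δ₀ g1 g2 => ?_, fun r B g1 g2 g3 => ?_⟩
  · refine (hmono (fun χ => ¬ ∀ s : ℂ, δ₀ ≤ (s - edgePoint w τ).re →
        |(s - edgePoint w τ).im| ≤ (s - edgePoint w τ).re / 2 →
        1 / Q ≤ ‖L P χ s‖ ∧ ‖L P χ s‖ ≤ Q)
      (fun χ => ¬ ∀ s : ℂ, δ₀ ≤ s.re - (1 + (w : ℝ) / 2) →
        |s.im - τ| ≤ (s.re - (1 + (w : ℝ) / 2)) / 2 →
        Q⁻¹ ≤ ‖Pool.Agent.TH339.TW.LL P χ s‖ ∧ ‖Pool.Agent.TH339.TW.LL P χ s‖ ≤ Q)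
      (fun χ hχ hgood => hχ fun s h3 h4 => ?_)).trans (h1 δ₀ g1 g2)
    rw [Complex.sub_re, hre] at h3 h4
    rw [Complex.sub_im, him] at h4
    rw [one_div, hLL]
    exact hgood s h3 h4
  · rw [hlogQ]
    refine (hmono (fun χ => ¬ ∀ f : ℂ → ℂ,
        DifferentiableOn ℂ f (Metric.ball (edgePoint w τ) r) →
        (∀ s ∈ Metric.ball (edgePoint w τ) r, ‖f s‖ ≤ B) →
        (∀ s ∈ Metric.ball (edgePoint w τ) r, 0 < (s - edgePoint w τ).re → f s = L P χ s) →
        1 / (2 * Q) ≤ ‖f (edgePoint w τ)‖ ∧ ‖f (edgePoint w τ)‖ ≤ 2 * Q)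
      (fun χ => ∃ f : ℂ → ℂ,
        DifferentiableOn ℂ f (Metric.ball (edgePoint w τ) r) ∧
        (∀ s ∈ Metric.ball (edgePoint w τ) r, ‖f s‖ ≤ B ∧
          (1 + (w : ℝ) / 2 < s.re → f s = Pool.Agent.TH339.TW.LL P χ s)) ∧
        ¬ (Q⁻¹ / 2 ≤ ‖f (edgePoint w τ)‖ ∧ ‖f (edgePoint w τ)‖ ≤ 2 * Q))
      (fun χ hχ => ?_)).trans (h2 r B g1 g2 g3)
    simp only [not_forall] at hχ
    obtain ⟨f, f1, f2, f3, f4⟩ := hχ
    refine ⟨f, f1, fun s hs => ⟨f2 s hs, fun hs2 => ?_⟩, fun hno => f4 ?_⟩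
    · rw [← hLL]
      exact f3 s hs (by
        rw [Complex.sub_re, hre]
        linarith)
    · have e : 1 / (2 * Q) = Q⁻¹ / 2 := by
        rw [one_div, mul_inv]
        ring
      rw [e]
      exact hno

end Pool.Agent.Results.MP_bf9450_nt.EdgeBoundsForTwists
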