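import Pool.Agent.TH553.RS.ArtinE

/-!
# The edge of the L-functions of the Artin twists of an elliptic curve over `ℚ`

`E` is an elliptic curve over `ℚ`, given by a Weierstrass equation over `ℤ`, and `f` is its newform.  For a
number field `K` with Galois closure `K'` the L-function `L(E/K, s)` is the product of the L-functions
`L(E ⊗ ρ, s)`, each with its multiplicity, over the irreducible representations `ρ` of `Gal(K'/ℚ)` in the
permutation representation on the embeddings of `K`.  If `K'/ℚ` is not solvable, then the continuation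
of `L(E ⊗ ρ, s)` is known for very few `ρ`.

The theorem is about the zeros and poles of local meromorphic continuations of these functions on the
edge `Re s = 3/2` of absolute convergence.  It uses Chebotarev's theorem, the exact mean value `1` of
`a_p² / p` (Rankin and Selberg, for `f`), and the equality case of the inequality of Cauchy and Schwarz:
`a_p / √p` and an irreducible character are both vectors of length one, so that the order of
`L(E ⊗ ρ, s)` is an integer between `-1` and `1`, and if it is `± 1` then `a_p / √p = ∓ χ(Frob_p)` in the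
mean, which is only possible for one `ρ`, for a real character of degree at most `2` and if the numbers
`a_p / √p` have only finitely many limit values in the mean.
-/

set_option autoImplicit false
open Classical

namespace Pool.Agent.Results.MP_bf9450_nt.OneExceptionalPair

open NumberField IsDedekindDomain Filter Topology CongruenceSubgroup UpperHalfPlane Polynomial
open scoped MatrixGroups

/-! ### The curve, its newform and the distribution of the traces of Frobenius -/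

/-- `a_p = p + 1 - #E(𝔽_p)`; there is one point at infinity. -/
noncomputable def frobTrace (W : WeierstrassCurve ℤ) (p : ℕ) : ℤ :=
  (p : ℤ) + 1 - ((Nat.card {P : ZMod p × ZMod p //
    P.2 ^ 2 + (W.a₁ : ZMod p) * P.1 * P.2 + (W.a₃ : ZMod p) * P.2 =
      P.1 ^ 3 + (W.a₂ : ZMod p) * P.1 ^ 2 + (W.a₄ : ZMod p) * P.1 + (W.a₆ : ZMod p)} : ℤ) + 1)

/-- The `n`-th Fourier coefficient of `f`. -/
noncomputable def coef {N : ℕ} (f : CuspForm (Gamma0 N : Subgroup (GL (Fin 2) ℝ)) 2) (n : ℕ) : ℂ :=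
  (qExpansion 1 f).coeff n

/-- `f ∈ S_2(Γ₀(N))` is the newform of the elliptic curve `E : W` of conductor `N`: the Fourier
coefficients `c(n)` of `f` are real with `c(1) = 1`, they satisfy the Hecke relations
`c(mn) = c(m) c(n)` for coprime `m`, `n` and `c(p^(j+2)) = c(p) c(p^(j+1)) - p c(p^j)` (without the last
term if `p ∣ N`), `c(p) = a_p` for all primes `p` that do not divide the discriminant of `W`,
`|c(p)| ≤ 2 √p` for all `p ∤ N` (Hasse) and `c(p) = 0, 1, -1` for `p ∣ N`. -/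
structure IsNewformOf (W : WeierstrassCurve ℤ) (N : ℕ)
    (f : CuspForm (Gamma0 N : Subgroup (GL (Fin 2) ℝ)) 2) : Prop where
  one : coef f 1 = 1
  real : ∀ n, (coef f n).im = 0
  mul : ∀ m n : ℕ, Nat.Coprime m n → coef f (m * n) = coef f m * coef f n
  pow : ∀ p j : ℕ, p.Prime → coef f (p ^ (j + 2)) = coef f p * coef f (p ^ (j + 1)) -
      (if p ∣ N then 0 else (p : ℂ) * coef f (p ^ j))
  points : ∀ p : ℕ, p.Prime → ¬ (p : ℤ) ∣ W.Δ → coef f p = (frobTrace W p : ℂ)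
  good : ∀ p : ℕ, p.Prime → ¬ p ∣ N → ‖coef f p‖ ≤ 2 * Real.sqrt p
  bad : ∀ p : ℕ, p.Prime → p ∣ N → coef f p = 0 ∨ coef f p = 1 ∨ coef f p = -1

/-- The law of Sato and Tate for `E : W`: the numbers `a_p / √p` have the distribution of the trace of a
random element of `SU(2)`.  (A theorem for all `E` without complex multiplication.) -/
def SatoTate (W : WeierstrassCurve ℤ) : Prop :=
  ∀ g : ℝ → ℝ, Continuous g → Tendsto (fun n : ℕ =>
    (∑ p ∈ (Finset.range (n + 1)).filter Nat.Prime, g (frobTrace W p / Real.sqrt p)) /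
      (Nat.primeCounting n : ℝ)) atTop
    (𝓝 (2 / Real.pi * ∫ θ in (0 : ℝ)..Real.pi, g (2 * Real.cos θ) * Real.sin θ ^ 2))

/-- The law for the curves with complex multiplication: half of the mass of the distribution of
`a_p / √p` is at zero, the other half is distributed like the trace of a random element of `SO(2)`.
(A theorem of Hecke for all `E` with complex multiplication.) -/
def CMLaw (W : WeierstrassCurve ℤ) : Prop :=
  ∀ g : ℝ → ℝ, Continuous g → Tendsto (fun n : ℕ =>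
    (∑ p ∈ (Finset.range (n + 1)).filter Nat.Prime, g (frobTrace W p / Real.sqrt p)) /
      (Nat.primeCounting n : ℝ)) atTop
    (𝓝 (1 / 2 * g 0 + 1 / (2 * Real.pi) * ∫ θ in (0 : ℝ)..Real.pi, g (2 * Real.cos θ)))

/-! ### Artin representations and the L-functions of the twists -/

/-- An irreducible Artin representation of `Gal(ℚ̄/ℚ)`: it is trivial on an open subgroup. -/
structure IsArtin {n : ℕ} (ρ : Representation ℂ Gal(AlgebraicClosure ℚ/ℚ) (Fin n → ℂ)) : Prop where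
  irreducible : ρ.IsIrreducible
  continuous : ∃ U : Subgroup Gal(AlgebraicClosure ℚ/ℚ),
    IsOpen (U : Set Gal(AlgebraicClosure ℚ/ℚ)) ∧ ∀ u ∈ U, ρ u = 1

/-- `σ` is a Frobenius element at the prime `v` of `ℚ`: there is a maximal ideal `Q` above `v` of the
ring of all algebraic integers with `σ x ≡ x ^ p` modulo `Q` for all `x`. -/
def IsFrobenius (v : HeightOneSpectrum (𝓞 ℚ)) (σ : Gal(AlgebraicClosure ℚ/ℚ)) : Prop :=
  ∃ Q : Ideal (𝓞 (AlgebraicClosure ℚ)), Q.IsMaximal ∧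
    Q.comap (algebraMap (𝓞 ℚ) (𝓞 (AlgebraicClosure ℚ))) = v.asIdeal ∧
    ∀ x : 𝓞 (AlgebraicClosure ℚ), σ • x - x ^ Ideal.absNorm v.asIdeal ∈ Q

/-- The polynomials `B v` are Euler factors of `L(E ⊗ ρ, s)`, for use at the height `τ`: for all but
finitely many primes `p`, `B_p(z) = det(1 - a_p z ρ(Frob_p⁻¹) + p z² ρ(Frob_p⁻¹)²)`, and for all primes
`B_p(p^{-3/2 - iτ}) ≠ 0` (this is true for the Euler factors of the L-function at all primes). -/
structure IsEulerFactor (W : WeierstrassCurve ℤ) {n : ℕ}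
    (ρ : Representation ℂ Gal(AlgebraicClosure ℚ/ℚ) (Fin n → ℂ)) (τ : ℝ)
    (B : HeightOneSpectrum (𝓞 ℚ) → ℂ[X]) : Prop where
  factor : ∀ᶠ v in cofinite, ∀ σ : Gal(AlgebraicClosure ℚ/ℚ), IsFrobenius v σ → ∀ z : ℂ,
    (B v).eval z = LinearMap.det (1 - ((frobTrace W (Ideal.absNorm v.asIdeal) : ℂ) * z) • ρ σ⁻¹ +
      ((Ideal.absNorm v.asIdeal : ℂ) * z ^ 2) • (ρ σ⁻¹) ^ 2)
  ne_zero : ∀ v, (B v).eval ((Ideal.absNorm v.asIdeal : ℂ) ^ (-(3 / 2 + τ * Complex.I : ℂ))) ≠ 0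

/-- The Euler product `∏_p B_p(p^{-s})⁻¹`. -/
noncomputable def eulerProduct (B : HeightOneSpectrum (𝓞 ℚ) → ℂ[X]) (s : ℂ) : ℂ :=
  ∏' v : HeightOneSpectrum (𝓞 ℚ), ((B v).eval ((Ideal.absNorm v.asIdeal : ℂ) ^ (-s)))⁻¹

/-- `log |L(E ⊗ ρ, 3/2 + iτ + ε)| / log (1/ε)`. -/
noncomputable def size (B : HeightOneSpectrum (𝓞 ℚ) → ℂ[X]) (τ ε : ℝ) : ℝ :=
  Real.log ‖eulerProduct B (3 / 2 + τ * Complex.I + ε)‖ / Real.log (1 / ε)

/-- `L(E ⊗ ρ, s)`, with some polynomials as Euler factors at finitely many primes, has a meromorphic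
continuation to a neighbourhood of `3/2 + iτ`, of order `m` at `3/2 + iτ`. -/
def HasOrder (W : WeierstrassCurve ℤ) {n : ℕ}
    (ρ : Representation ℂ Gal(AlgebraicClosure ℚ/ℚ) (Fin n → ℂ)) (τ : ℝ) (m : ℤ) : Prop :=
  ∃ B, IsEulerFactor W ρ τ B ∧ ∃ Λ : ℂ → ℂ, MeromorphicAt Λ (3 / 2 + τ * Complex.I) ∧
    (∀ᶠ s in 𝓝 ((3 / 2 : ℂ) + τ * Complex.I), (3 / 2 : ℝ) < s.re → Λ s = eulerProduct B s) ∧
    meromorphicOrderAt Λ (3 / 2 + τ * Complex.I) = m

/-- **The edge `Re s = 3/2` for the Artin twists of an elliptic curve over `ℚ`: at most one exceptional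
pair.**  Let `E` be an elliptic curve over `ℚ` and `f` its newform.

1. (Nothing is assumed about continuation.)  Let `ρ_k`, `k ∈ S`, be finitely many irreducible Artin
representations of `Gal(ℚ̄/ℚ)` and `τ_k ∈ ℝ`, such that for `k ≠ l` neither `(τ_k, ρ_k)` and `(τ_l, ρ_l)`
nor `(τ_k, ρ_k)` and `(-τ_l, ρ_l^*)` are the same up to equivalence.  Then, for small `ε > 0`,
`L(E ⊗ ρ_k, 3/2 + iτ_k + ε) ≠ 0` and
`∑_k w_k (log |L(E ⊗ ρ_k, 3/2 + iτ_k + ε)| / log(1/ε))² ≤ 1 + η`, with `w_k = 1` if `τ_k = 0` and `ρ_k` is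
self-dual, `w_k = 2` if not.

2. Suppose that `L(E ⊗ ρ, s)`, `ρ` an irreducible Artin representation of dimension `n`, has a meromorphic
continuation to a neighbourhood of `3/2 + iτ`, with order `m` at this point.  If `m ≠ 0` then `τ = 0`,
`m = ± 1`, `ρ` is self-dual and `n ≤ 2`.  If the law of Sato and Tate holds for `E`, or the law for complex
multiplication, then `m = 0`.

3. There is at most one exceptional `ρ`: if the orders at `3/2 + iτ` and `3/2 + iτ'` of the continuations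
of `L(E ⊗ ρ, s)` and `L(E ⊗ ρ', s)`, `ρ` and `ρ'` irreducible, are both different from zero, then `ρ` and
`ρ'` are equivalent (and `τ = τ' = 0`). -/
theorem result (W : WeierstrassCurve ℤ) (hΔ : W.Δ ≠ 0) (N : ℕ) [NeZero N]
    (f : CuspForm (Gamma0 N : Subgroup (GL (Fin 2) ℝ)) 2) (hf : IsNewformOf W N f) :
    (∀ (κ : Type) (S : Finset κ) (n : κ → ℕ)
      (ρ : ∀ k, Representation ℂ Gal(AlgebraicClosure ℚ/ℚ) (Fin (n k) → ℂ)) (τ : κ → ℝ)
      (B : κ → HeightOneSpectrum (𝓞 ℚ) → ℂ[X]),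
      (∀ k ∈ S, IsArtin (ρ k) ∧ IsEulerFactor W (ρ k) (τ k) (B k)) →
      (∀ k ∈ S, ∀ l ∈ S, k ≠ l → ¬ (τ k = τ l ∧ Nonempty ((ρ k).Equiv (ρ l))) ∧
        ¬ (τ k = -τ l ∧ Nonempty ((ρ k).Equiv (ρ l).dual))) →
      (∀ k ∈ S, ∀ᶠ ε : ℝ in 𝓝[>] 0, eulerProduct (B k) (3 / 2 + τ k * Complex.I + ε) ≠ 0) ∧
      ∀ η : ℝ, 0 < η → ∀ᶠ ε : ℝ in 𝓝[>] 0,
        ∑ k ∈ S, (if τ k = 0 ∧ Nonempty ((ρ k).Equiv (ρ k).dual) then 1 else 2) *
          size (B k) (τ k) ε ^ 2 ≤ 1 + η) ∧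
    (∀ (n : ℕ) (ρ : Representation ℂ Gal(AlgebraicClosure ℚ/ℚ) (Fin n → ℂ)), IsArtin ρ →
      ∀ (τ : ℝ) (m : ℤ), HasOrder W ρ τ m →
        (m ≠ 0 → τ = 0 ∧ |m| = 1 ∧ Nonempty (ρ.Equiv ρ.dual) ∧ n ≤ 2) ∧
        (SatoTate W ∨ CMLaw W → m = 0)) ∧
    (∀ (n n' : ℕ) (ρ : Representation ℂ Gal(AlgebraicClosure ℚ/ℚ) (Fin n → ℂ))
      (ρ' : Representation ℂ Gal(AlgebraicClosure ℚ/ℚ) (Fin n' → ℂ)), IsArtin ρ → IsArtin ρ' →
      ∀ (τ τ' : ℝ) (m m' : ℤ), HasOrder W ρ τ m → HasOrder W ρ' τ' m' → m ≠ 0 → m' ≠ 0 →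
        Nonempty (ρ.Equiv ρ')) := by
  have H : Pool.Agent.TH941.Hecke f :=
    { one := hf.one
      real := hf.real
      mul := hf.mul
      pow := hf.pow
      good := hf.good
      bad := fun p hp h => by
        rcases hf.bad p hp h with h1 | h1 | h1
        · have h2 : ‖coef f p‖ ≤ 1 := by rw [h1]; simp
          exact h2
        · have h2 : ‖coef f p‖ ≤ 1 := by rw [h1]; simp
          exact h2
        · have h2 : ‖coef f p‖ ≤ 1 := by rw [h1]; simp
          exact h2 }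
  have ht2 : ∀ V : Ultrafilter ℝ, (V : Filter ℝ) ≤ 𝓝[>] 0 →
      Pool.Agent.TH553.RS.M (Pool.Agent.W540.BE.nm ℚ) V
        (fun v => Pool.Agent.TH553.RS.tv W v ^ 2) ≤ 1 := fun V hV =>
    (Pool.Agent.TH553.RS.M_tv W hΔ H hf.points hV).le
  choose σ hσ using Pool.Agent.W540.BE.exists_isFrob (F := ℚ)
  have hopen : ∀ {n : ℕ} {ρ : Representation ℂ Gal(AlgebraicClosure ℚ/ℚ) (Fin n → ℂ)}, IsArtin ρ →
      Pool.Agent.TH553.RS.Open ρ := fun h => h.continuous
  have hsz : ∀ {n : ℕ} {ρ : Representation ℂ Gal(AlgebraicClosure ℚ/ℚ) (Fin n → ℂ)} {τ : ℝ}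
      {B : HeightOneSpectrum (𝓞 ℚ) → ℂ[X]}, IsArtin ρ → IsEulerFactor W ρ τ B →
      (∀ᶠ ε : ℝ in 𝓝[>] 0, eulerProduct B (3 / 2 + τ * Complex.I + ε) ≠ 0) ∧
      Tendsto (fun ε : ℝ => Pool.Agent.TH553.RS.qt (Pool.Agent.W540.BE.nm ℚ)
        (fun v => Pool.Agent.TH553.RS.tv W v * Pool.Agent.TH553.RS.vr σ ρ τ v) ε - size B τ ε)
        (𝓝[>] 0) (𝓝 0) := by
    intro n ρ τ B h1 h2
    exact Pool.Agent.TH553.RS.size_W hΔ (hopen h1) τ h2.factor h2.ne_zero (eulerProduct B)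
      (fun _ => rfl) hσ
  have hM : ∀ {n : ℕ} {ρ : Representation ℂ Gal(AlgebraicClosure ℚ/ℚ) (Fin n → ℂ)} {τ : ℝ} {m : ℤ},
      IsArtin ρ → HasOrder W ρ τ m → ∀ {V : Ultrafilter ℝ}, (V : Filter ℝ) ≤ 𝓝[>] 0 →
      (Pool.Agent.TH553.RS.M (Pool.Agent.W540.BE.nm ℚ) V fun v =>
        Pool.Agent.TH553.RS.tv W v * Pool.Agent.TH553.RS.vr σ ρ τ v) = -(m : ℝ) := by
    rintro n ρ τ m h1 ⟨B, h2, Λ, h3, h4, h5⟩ V hV
    obtain ⟨h6, h7⟩ := hsz h1 h2
    have h8 : Tendsto (size B τ) (𝓝[>] 0) (𝓝 (-(m : ℝ))) :=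
      Pool.Agent.W353.NF.lim_order (L := eulerProduct B) h6 h3 h4 h5
    refine Pool.Agent.TH553.RS.M_of_tendsto hV ?_
    have h9 := h7.add h8
    rw [zero_add] at h9
    exact h9.congr fun ε => by ring
  obtain ⟨V, hV⟩ := Ultrafilter.exists_le (𝓝[>] (0 : ℝ))
  refine ⟨fun κ S n ρ τ B hk hne => ?_, fun n ρ hρ τ m hm => ?_, ?_⟩
  · refine ⟨fun k h => (hsz (hk k h).1 (hk k h).2).1, fun η hη => ?_⟩
    have D : Pool.Agent.TH553.RS.Dat (Pool.Agent.W540.BE.nm ℚ) S (Pool.Agent.TH553.RS.tv W)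
        (fun k => Pool.Agent.TH553.RS.vr σ (ρ k) (τ k))
        (fun k l => Pool.Agent.TH553.RS.ga (ρ k) (τ k) (ρ l) (τ l))
        (fun k => size (B k) (τ k)) :=
      { sys := Pool.Agent.TH553.RS.sysF ℚ
        bt := Pool.Agent.TH553.RS.bd_tv W
        t2 := ht2
        bu := fun k h => Pool.Agent.TH553.RS.bd_vr σ (hopen (hk k h).1) (τ k)
        gr := fun k h l h' => Pool.Agent.TH553.RS.gramA (hopen (hk k h).1) (τ k)
          (hopen (hk l h').1) (τ l) hσ
        cx := fun k h => (hsz (hk k h).1 (hk k h).2).2 }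
    filter_upwards [D.bessel (fun k h l h' hkl => Pool.Agent.TH553.RS.ga_ne
      (hk k h).1.irreducible (hk l h').1.irreducible (hne k h l h' hkl).1 (hne k h l h' hkl).2) hη]
      with ε hε
    refine le_trans (le_of_eq (Finset.sum_congr rfl fun k h => ?_)) hε
    split_ifs with h1
    · rw [h1.1, Pool.Agent.TH553.RS.ga_self_real (hk k h).1.irreducible h1.2, div_one, one_mul]
    · rw [Pool.Agent.TH553.RS.ga_self_half (hk k h).1.irreducible h1]
      ring
  · have key := fun h => Pool.Agent.TH553.RS.exc1 (Pool.Agent.TH553.RS.abs_tv W) ht2 hσ (hopen hρ)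
      hρ.irreducible (τ := τ) (m := m) h hV (hM hρ hm hV)
    refine ⟨fun h => ?_, fun h => ?_⟩
    · obtain ⟨h1, h2, h3, h4, -⟩ := key h
      exact ⟨h1, h2, h3, by exact_mod_cast h4⟩
    · by_contra hcon
      exact (key hcon).2.2.2.2 fun S => Pool.Agent.TH553.RS.M_ps W hΔ h S hV
  · intro n n' ρ ρ' hρ hρ' τ τ' m m' hm hm' h h'
    exact Pool.Agent.TH553.RS.exc2 (Pool.Agent.TH553.RS.abs_tv W) ht2 hσ (hopen hρ) hρ.irreducible
      (hopen hρ') hρ'.irreducible h h' hV (hM hρ hm hV) (hM hρ' hm' hV)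

end Pool.Agent.Results.MP_bf9450_nt.OneExceptionalPair
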